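import Mathlib

/-!
# MP_b77ea7_nt: the maps `T_k` on the rational numbers with odd denominator, 2-adic derivatives
-/

set_option autoImplicit false

namespace RatDeriv

/-- `ℚ_(2)`: the rational numbers whose reduced denominator is odd. -/
def D : Set ℚ := {x | Odd x.den}

/-- The map `T_k`: `x / 2` for even `x`, `(k x + 1) / 2` for odd `x`. -/
def T (k : ℕ) (x : ℚ) : ℚ := if Even x.num then x / 2 else (k * x + 1) / 2

/-- `h` is differentiable at `x` with the derivative `L`, as a function on `ℚ_(2)` for the 2-adic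
absolute value: `(h y - h x) / (y - x)` tends to `L` when `y` in `ℚ_(2)` tends to `x`. -/
def HasDer (h : ℚ → ℚ) (x : ℚ) (L : ℚ_[2]) : Prop :=
  ∀ ε : ℝ, 0 < ε → ∃ δ : ℝ, 0 < δ ∧ ∀ y ∈ D, y ≠ x → ‖((y - x : ℚ) : ℚ_[2])‖ < δ →
    ‖((h y - h x : ℚ) : ℚ_[2]) / ((y - x : ℚ) : ℚ_[2]) - L‖ < ε

end RatDeriv
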