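import Pool.Agent.Lib.MP_b77ea7_ntH73.Defs

set_option autoImplicit false

namespace RatDeriv

theorem mem_D {x : ℚ} : x ∈ D ↔ Odd x.den := Iff.rfl

/-- the 2-adic absolute value -/
noncomputable def N (x : ℚ) : ℝ := ‖(x : ℚ_[2])‖

theorem N_nonneg (x : ℚ) : 0 ≤ N x := norm_nonneg _

theorem N_mul (x y : ℚ) : N (x * y) = N x * N y := by
  unfold N; push_cast; exact norm_mul _ _

theorem N_div (x y : ℚ) : N (x / y) = N x / N y := by
  unfold N; push_cast; exact norm_div _ _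

theorem N_neg (x : ℚ) : N (-x) = N x := by
  unfold N; push_cast; exact norm_neg _

theorem N_add (x y : ℚ) : N (x + y) ≤ max (N x) (N y) := by
  unfold N; push_cast; exact Padic.nonarchimedean _ _

theorem N_sub (x y : ℚ) : N (x - y) ≤ max (N x) (N y) := by
  rw [sub_eq_add_neg, ← N_neg y]; exact N_add _ _

theorem N_two : N 2 = 1 / 2 := by
  unfold N
  have := Padic.norm_p (p := 2)
  push_cast at this ⊢
  rw [this]; norm_num

theorem N_pow (m : ℕ) : N (2 ^ m) = (1 / 2) ^ m := by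
  rw [← N_two]; unfold N; push_cast; exact norm_pow _ _

theorem N_nat {a : ℕ} (ha : Odd a) : N a = 1 := by
  unfold N
  push_cast
  rw [Padic.norm_natCast_eq_one_iff]
  exact (Nat.coprime_two_left).2 ha

theorem N_le {x : ℚ} (hx : x ∈ D) : N x ≤ 1 := by
  apply Padic.norm_rat_le_one
  intro h
  have := mem_D.1 hx
  rw [← Nat.not_even_iff_odd] at this
  exact this (even_iff_two_dvd.2 h)

theorem N_eq_zero {x : ℚ} (h : N x = 0) : x = 0 := by
  unfold N at h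
  rw [norm_eq_zero] at h
  exact_mod_cast h

theorem ev {x : ℚ} (hx : x ∈ D) : Even x.num ↔ N x < 1 := by
  have h1 : (x : ℚ_[2]) = (x.num : ℚ_[2]) / (x.den : ℚ_[2]) := by
    conv_lhs => rw [← Rat.num_div_den x]
    push_cast
    rfl
  have h2 : ‖(x.den : ℚ_[2])‖ = 1 := by
    rw [Padic.norm_natCast_eq_one_iff]
    exact (Nat.coprime_two_left).2 (mem_D.1 hx)
  unfold N
  rw [h1, norm_div, h2, div_one, Padic.norm_intCast_lt_one_iff, even_iff_two_dvd]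
  norm_num

theorem parity {u v : ℚ} (hu : u ∈ D) (hv : v ∈ D) (h : N (u - v) < 1) :
    Even u.num ↔ Even v.num := by
  rw [ev hu, ev hv]
  constructor
  · intro h1
    have e2 : v = u - (u - v) := by ring
    rw [e2]
    exact lt_of_le_of_lt (N_sub _ _) (max_lt h1 h)
  · intro h1
    have e1 : u = (u - v) + v := by ring
    rw [e1]
    exact lt_of_le_of_lt (N_add _ _) (max_lt h h1)

theorem add_mem {x y : ℚ} (hx : x ∈ D) (hy : y ∈ D) : x + y ∈ D :=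
  ((mem_D.1 hx).mul (mem_D.1 hy)).of_dvd_nat (Rat.add_den_dvd x y)

theorem mul_mem {x y : ℚ} (hx : x ∈ D) (hy : y ∈ D) : x * y ∈ D :=
  ((mem_D.1 hx).mul (mem_D.1 hy)).of_dvd_nat (Rat.mul_den_dvd x y)

theorem int_mem (n : ℤ) : (n : ℚ) ∈ D := by
  rw [mem_D]; simp

theorem neg_mem {x : ℚ} (hx : x ∈ D) : -x ∈ D := by
  rw [mem_D] at *; simpa using hx

theorem sub_mem {x y : ℚ} (hx : x ∈ D) (hy : y ∈ D) : x - y ∈ D := by
  rw [sub_eq_add_neg]; exact add_mem hx (neg_mem hy)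

theorem div_mem (n : ℤ) {d : ℕ} (hd : Odd d) : (n : ℚ) / (d : ℚ) ∈ D := by
  have h := Rat.den_dvd n (d : ℤ)
  have e : (n : ℚ) / (d : ℚ) = Rat.divInt n (d : ℤ) := by
    rw [← Rat.intCast_div_eq_divInt]; push_cast; rfl
  rw [mem_D, e]
  exact hd.of_dvd_nat (by exact_mod_cast h)

theorem inv_mem {d : ℕ} (hd : Odd d) : (1 : ℚ) / (d : ℚ) ∈ D := by
  have := div_mem 1 hd
  simpa using this

theorem T_mem {k : ℕ} (hk : Odd k) {x : ℚ} (hx : x ∈ D) : T k x ∈ D := by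
  have hd : Odd x.den := hx
  have h0 : (x.den : ℚ) ≠ 0 := by exact_mod_cast x.den_nz
  have hx' : x * x.den = x.num := Rat.mul_den_eq_num x
  unfold T
  split_ifs with h
  · obtain ⟨n, hn⟩ := h
    have hn' : (x.num : ℚ) = n + n := by exact_mod_cast hn
    have : x / 2 = (n : ℚ) / (x.den : ℚ) := by
      rw [div_eq_div_iff (by norm_num) h0]
      linear_combination hx' + hn'
    rw [this]
    exact div_mem n hd
  · have ho : Odd x.num := by rwa [← Int.not_even_iff_odd]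
    have hs : Even ((k : ℤ) * x.num + x.den) := by
      apply Odd.add_odd
      · exact (by exact_mod_cast hk : Odd (k : ℤ)).mul ho
      · exact_mod_cast hd
    obtain ⟨n, hn⟩ := hs
    have hn' : (k : ℚ) * x.num + x.den = n + n := by exact_mod_cast hn
    have : ((k : ℚ) * x + 1) / 2 = (n : ℚ) / (x.den : ℚ) := by
      rw [div_eq_div_iff (by norm_num) h0]
      linear_combination (k : ℚ) * hx' + hn'
    rw [this]
    exact div_mem n hd

theorem iter_mem {k : ℕ} (hk : Odd k) (m : ℕ) {x : ℚ} (hx : x ∈ D) : (T k)^[m] x ∈ D := by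
  induction m generalizing x with
  | zero => exact hx
  | succ m ih => rw [Function.iterate_succ_apply]; exact ih (T_mem hk hx)

/-- product of the multipliers along the orbit -/
def A (k : ℕ) : ℕ → ℚ → ℕ
  | 0, _ => 1
  | m + 1, v => (if Even v.num then 1 else k) * A k m (T k v)

theorem A_succ (k m : ℕ) (v : ℚ) :
    A k (m + 1) v = (if Even v.num then 1 else k) * A k m (T k v) := rfl

theorem A_odd {k : ℕ} (hk : Odd k) (m : ℕ) (v : ℚ) : Odd (A k m v) := by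
  induction m generalizing v with
  | zero => exact odd_one
  | succ m ih =>
    rw [A_succ]
    refine Odd.mul ?_ (ih _)
    split_ifs
    · exact odd_one
    · exact hk

theorem iter_sub {k : ℕ} (hk : Odd k) (m : ℕ) {u v : ℚ} (hu : u ∈ D) (hv : v ∈ D)
    (h : N (u - v) ≤ (1 / 2) ^ m) :
    (T k)^[m] u - (T k)^[m] v = A k m v * (u - v) / 2 ^ m := by
  induction m generalizing u v with
  | zero => simp [A]
  | succ m ih =>
    have h1 : N (u - v) < 1 := lt_of_le_of_lt h (pow_lt_one₀ (by norm_num) (by norm_num) (by omega))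
    have hp := parity hu hv h1
    have hT : T k u - T k v = (if Even v.num then 1 else k : ℕ) * (u - v) / 2 := by
      unfold T
      by_cases he : Even v.num
      · rw [if_pos he, if_pos he, if_pos (hp.2 he)]; push_cast; ring
      · rw [if_neg he, if_neg he, if_neg (fun h' => he (hp.1 h'))]; ring
    have hodd : Odd (if Even v.num then 1 else k : ℕ) := by
      split_ifs
      · exact odd_one
      · exact hk
    have hN : N (T k u - T k v) ≤ (1 / 2) ^ m := by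
      rw [hT, N_div, N_mul, N_nat hodd, N_two, one_mul]
      rw [pow_succ] at h
      rw [div_le_iff₀ (by norm_num)]
      exact h
    rw [Function.iterate_succ_apply, Function.iterate_succ_apply, ih (T_mem hk hu) (T_mem hk hv) hN, hT]
    rw [A_succ, Nat.cast_mul, pow_succ]
    ring

theorem iter_h {h : ℚ → ℚ} (hc : ∀ x ∈ D, h (T 3 x) = T 5 (h x)) (m : ℕ) {x : ℚ} (hx : x ∈ D) :
    h ((T 3)^[m] x) = (T 5)^[m] (h x) := by
  induction m generalizing x with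
  | zero => rfl
  | succ m ih =>
    rw [Function.iterate_succ_apply, Function.iterate_succ_apply, ih (T_mem (by decide) hx), hc x hx]

theorem two_pow_mem (n : ℕ) : (2 : ℚ) ^ n ∈ D := by
  have := int_mem (2 ^ n)
  push_cast at this
  exact this

/-- near-affinity of `h` on the ball of radius `2 ^ (-r)` around a point of the orbit -/
theorem est {h : ℚ → ℚ} (hm : Set.MapsTo h D D) (hc : ∀ x ∈ D, h (T 3 x) = T 5 (h x))
    {x : ℚ} (hx : x ∈ D) {L : ℚ_[2]} (hL : HasDer h x L) (r : ℕ) (hr : ‖L‖ ≤ 2 ^ r)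
    {ε : ℝ} (hε : 0 < ε) :
    ∃ X ∈ D, ∃ Λ : ℚ_[2], ‖Λ‖ = ‖L‖ ∧ ∀ c ∈ D, N (c - X) ≤ (1 / 2) ^ r →
      ‖((h c - h X : ℚ) : ℚ_[2]) - Λ * ((c - X : ℚ) : ℚ_[2])‖ ≤ ε * (1 / 2) ^ r := by
  have h3 : Odd 3 := by decide
  have h5 : Odd 5 := by decide
  obtain ⟨δ, hδ, hd⟩ := hL (min ε 1) (lt_min hε one_pos)
  obtain ⟨m, hmδ⟩ : ∃ m : ℕ, (1 / 2 : ℝ) ^ m < δ := exists_pow_lt_of_lt_one hδ (by norm_num)
  obtain ⟨X, hXdef⟩ : ∃ X, X = (T 3)^[m] x := ⟨_, rfl⟩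
  obtain ⟨a, hadef⟩ : ∃ a, a = A 3 m x := ⟨_, rfl⟩
  obtain ⟨b, hbdef⟩ : ∃ b, b = A 5 m (h x) := ⟨_, rfl⟩
  have ha : Odd a := hadef ▸ A_odd h3 m x
  have hb : Odd b := hbdef ▸ A_odd h5 m (h x)
  have hX : X ∈ D := hXdef ▸ iter_mem h3 m hx
  have ha1 : ‖(a : ℚ_[2])‖ = 1 := by have := N_nat ha; unfold N at this; exact_mod_cast this
  have hb1 : ‖(b : ℚ_[2])‖ = 1 := by have := N_nat hb; unfold N at this; exact_mod_cast this
  have ha0 : (a : ℚ_[2]) ≠ 0 := by intro h0; rw [h0] at ha1; simp at ha1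
  have haq : (a : ℚ) ≠ 0 := by
    intro h0; apply ha0; exact_mod_cast congrArg (Rat.cast : ℚ → ℚ_[2]) h0
  have h2p : (2 : ℚ_[2]) ^ m ≠ 0 := pow_ne_zero _ (by norm_num)
  refine ⟨X, hX, ((b : ℚ_[2]) / (a : ℚ_[2])) * L, ?_, ?_⟩
  · rw [norm_mul, norm_div, ha1, hb1]; norm_num
  intro c hcD hcr
  by_cases hcX : c = X
  · subst hcX
    simp only [sub_self, Rat.cast_zero, mul_zero, norm_zero]
    positivity
  obtain ⟨y, hydef⟩ : ∃ y, y = x + 2 ^ m * (c - X) * (1 / (a : ℚ)) := ⟨_, rfl⟩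
  have hy : y ∈ D := by
    rw [hydef]
    exact add_mem hx (mul_mem (mul_mem (two_pow_mem m) (sub_mem hcD hX)) (inv_mem ha))
  have hyx : y - x = 2 ^ m * (c - X) / a := by rw [hydef]; ring
  have hNyx : N (y - x) = (1 / 2) ^ m * N (c - X) := by
    rw [hyx, N_div, N_mul, N_pow, N_nat ha, div_one]
  have hcne : c - X ≠ 0 := sub_ne_zero.2 hcX
  have hyne : y - x ≠ 0 := by
    rw [hyx]
    exact div_ne_zero (mul_ne_zero (pow_ne_zero _ (by norm_num)) hcne) haq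
  have hN1 : N (c - X) ≤ 1 := hcr.trans (pow_le_one₀ (by norm_num) (by norm_num))
  have hpm : (0 : ℝ) < (1 / 2) ^ m := by positivity
  have hNm : N (y - x) ≤ (1 / 2) ^ m := by
    rw [hNyx]; exact mul_le_of_le_one_right hpm.le hN1
  have hq := hd y hy (sub_ne_zero.1 hyne) (lt_of_le_of_lt hNm hmδ)
  obtain ⟨ρ, hρdef⟩ : ∃ ρ, ρ = ((h y - h x : ℚ) : ℚ_[2]) / ((y - x : ℚ) : ℚ_[2]) := ⟨_, rfl⟩
  rw [← hρdef] at hq
  have hyy0 : ((y - x : ℚ) : ℚ_[2]) ≠ 0 := by exact_mod_cast hyne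
  have hρy : ρ * ((y - x : ℚ) : ℚ_[2]) = ((h y - h x : ℚ) : ℚ_[2]) := by
    rw [hρdef]; exact div_mul_cancel₀ _ hyy0
  have hT : (T 3)^[m] y = c := by
    have := iter_sub h3 m hy hx hNm
    rw [← hXdef, ← hadef, hyx] at this
    have h2 : (a : ℚ) * (2 ^ m * (c - X) / a) / 2 ^ m = c - X := by field_simp
    rw [h2] at this
    linarith
  have hρ : ‖ρ‖ ≤ 2 ^ r := by
    have e : ρ = (ρ - L) + L := by ring
    rw [e]
    refine (Padic.nonarchimedean _ _).trans (max_le ?_ hr)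
    exact (hq.le.trans (min_le_right _ _)).trans (one_le_pow₀ (by norm_num))
  have hNh : N (h y - h x) ≤ (1 / 2) ^ m := by
    have e : N (h y - h x) = ‖ρ‖ * N (y - x) := by
      unfold N; rw [← hρy, norm_mul]
    rw [e, hNyx]
    calc ‖ρ‖ * ((1 / 2) ^ m * N (c - X)) ≤ 2 ^ r * ((1 / 2) ^ m * (1 / 2) ^ r) := by
          apply mul_le_mul hρ (mul_le_mul_of_nonneg_left hcr hpm.le)
            (mul_nonneg hpm.le (N_nonneg _)) (by positivity)
      _ = (1 / 2) ^ m := by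
          have : (2 : ℝ) ^ r * (1 / 2) ^ r = 1 := by rw [← mul_pow]; norm_num
          calc (2 : ℝ) ^ r * ((1 / 2) ^ m * (1 / 2) ^ r) = (2 ^ r * (1 / 2) ^ r) * (1 / 2) ^ m := by ring
            _ = (1 / 2) ^ m := by rw [this, one_mul]
  have hT5 := iter_sub h5 m (hm hy) (hm hx) hNh
  have hhc : h c - h X = b * (h y - h x) / 2 ^ m := by
    rw [← hT, hXdef, iter_h hc m hy, iter_h hc m hx, hT5, ← hbdef]
  have e1 : ((y - x : ℚ) : ℚ_[2]) = 2 ^ m * ((c - X : ℚ) : ℚ_[2]) / (a : ℚ_[2]) := by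
    rw [hyx]; push_cast; ring
  have e2 : ((h c - h X : ℚ) : ℚ_[2]) = (b : ℚ_[2]) * ((h y - h x : ℚ) : ℚ_[2]) / 2 ^ m := by
    rw [hhc]; push_cast; ring
  have e3 : ((h c - h X : ℚ) : ℚ_[2]) - (b : ℚ_[2]) / (a : ℚ_[2]) * L * ((c - X : ℚ) : ℚ_[2]) =
      (b : ℚ_[2]) / (a : ℚ_[2]) * (ρ - L) * ((c - X : ℚ) : ℚ_[2]) := by
    rw [e2, ← hρy, e1]
    field_simp
  rw [e3, norm_mul, norm_mul, norm_div, ha1, hb1]
  have e4 : ‖((c - X : ℚ) : ℚ_[2])‖ = N (c - X) := rfl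
  rw [e4]
  have := hq.le.trans (min_le_left _ _)
  calc 1 / 1 * ‖ρ - L‖ * N (c - X) = ‖ρ - L‖ * N (c - X) := by ring
    _ ≤ ε * (1 / 2) ^ r := mul_le_mul this hcr (N_nonneg _) hε.le

theorem T_neg_one : T 3 (-1) = -1 := by
  unfold T
  rw [if_neg (by norm_num)]
  norm_num

theorem neg_one_mem : (-1 : ℚ) ∈ D := by
  have := int_mem (-1)
  push_cast at this
  exact this

/-- the multipliers at `-1` disagree -/
theorem fin {h : ℚ → ℚ} (hm : Set.MapsTo h D D) (hc : ∀ x ∈ D, h (T 3 x) = T 5 (h x))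
    {L : ℚ_[2]} (hL0 : L ≠ 0) (r : ℕ) (hr : ‖L‖ ≤ 2 ^ r) {X : ℚ} (hX : X ∈ D) {Λ : ℚ_[2]}
    (hΛ : ‖Λ‖ = ‖L‖) (he : ∀ c ∈ D, N (c - X) ≤ (1 / 2) ^ r →
      ‖((h c - h X : ℚ) : ℚ_[2]) - Λ * ((c - X : ℚ) : ℚ_[2])‖ ≤
        (‖L‖ * (1 / 2) ^ (r + 4)) * (1 / 2) ^ r) : False := by
  have h3 : Odd 3 := by decide
  have h5 : Odd 5 := by decide
  have hLp : 0 < ‖L‖ := norm_pos_iff.2 hL0
  have h21 : (2 : ℝ) ^ r * (1 / 2) ^ r = 1 := by rw [← mul_pow]; norm_num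
  have hpr : (0 : ℝ) < (1 / 2) ^ r := by positivity
  have hL1 : ‖L‖ * (1 / 2) ^ r ≤ 1 := by
    calc ‖L‖ * (1 / 2) ^ r ≤ 2 ^ r * (1 / 2) ^ r := mul_le_mul_of_nonneg_right hr hpr.le
      _ = 1 := h21
  obtain ⟨a, hadef⟩ : ∃ a, a = A 3 r X := ⟨_, rfl⟩
  have ha : Odd a := hadef ▸ A_odd h3 r X
  have haq : (a : ℚ) ≠ 0 := by
    have : a ≠ 0 := by rintro rfl; exact absurd ha (by decide)
    exact_mod_cast this
  obtain ⟨Xr, hXr⟩ : ∃ Xr, Xr = (T 3)^[r] X := ⟨_, rfl⟩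
  have hXrD : Xr ∈ D := hXr ▸ iter_mem h3 r hX
  -- the points
  have key : ∀ w ∈ D, ∃ c ∈ D, N (c - X) ≤ (1 / 2) ^ r ∧ (T 3)^[r] c = w ∧
      c - X = 2 ^ r * (w - Xr) / a := by
    intro w hw
    have hcD : X + 2 ^ r * (w - Xr) * (1 / (a : ℚ)) ∈ D :=
      add_mem hX (mul_mem (mul_mem (two_pow_mem r) (sub_mem hw hXrD)) (inv_mem ha))
    have hd : X + 2 ^ r * (w - Xr) * (1 / (a : ℚ)) - X = 2 ^ r * (w - Xr) / a := by ring
    have hN : N (X + 2 ^ r * (w - Xr) * (1 / (a : ℚ)) - X) ≤ (1 / 2) ^ r := by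
      rw [hd, N_div, N_mul, N_pow, N_nat ha, div_one]
      exact mul_le_of_le_one_right hpr.le (N_le (sub_mem hw hXrD))
    refine ⟨_, hcD, hN, ?_, hd⟩
    have := iter_sub h3 r hcD hX hN
    rw [← hXr, ← hadef, hd] at this
    have h2 : (a : ℚ) * (2 ^ r * (w - Xr) / a) / 2 ^ r = w - Xr := by field_simp
    rw [h2] at this
    linarith
  have hz1D : (-1 + 2 ^ (r + 2) : ℚ) ∈ D := add_mem neg_one_mem (two_pow_mem _)
  have hz2D : (-1 + 3 * 2 ^ (r + 1) : ℚ) ∈ D := by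
    refine add_mem neg_one_mem (mul_mem ?_ (two_pow_mem _))
    have := int_mem 3
    push_cast at this
    exact this
  obtain ⟨c0, hc0, hN0, hT0, hd0⟩ := key (-1) neg_one_mem
  obtain ⟨c1, hc1, hN1, hT1, hd1⟩ := key _ hz1D
  obtain ⟨c2, hc2, hN2, hT2, hd2⟩ := key _ hz2D
  have hTz : T 3 (-1 + 2 ^ (r + 2)) = -1 + 3 * 2 ^ (r + 1) := by
    have hN : N ((-1 + 2 ^ (r + 2)) - (-1)) < 1 := by
      have e : ((-1 + 2 ^ (r + 2)) - (-1) : ℚ) = 2 ^ (r + 2) := by ring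
      rw [e, N_pow]
      exact pow_lt_one₀ (by norm_num) (by norm_num) (by omega)
    have hp := parity hz1D neg_one_mem hN
    unfold T
    rw [if_neg (fun h' => absurd (hp.1 h') (by norm_num))]
    push_cast
    rw [pow_succ, pow_succ]
    ring
  -- errors
  obtain ⟨η, hη⟩ : ∃ η, η = (‖L‖ * (1 / 2) ^ (r + 4)) * (1 / 2 : ℝ) ^ r := ⟨_, rfl⟩
  obtain ⟨E0, hE0⟩ : ∃ E, E = ((h c0 - h X : ℚ) : ℚ_[2]) - Λ * ((c0 - X : ℚ) : ℚ_[2]) := ⟨_, rfl⟩
  obtain ⟨E1, hE1⟩ : ∃ E, E = ((h c1 - h X : ℚ) : ℚ_[2]) - Λ * ((c1 - X : ℚ) : ℚ_[2]) := ⟨_, rfl⟩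
  obtain ⟨E2, hE2⟩ : ∃ E, E = ((h c2 - h X : ℚ) : ℚ_[2]) - Λ * ((c2 - X : ℚ) : ℚ_[2]) := ⟨_, rfl⟩
  have n0 : ‖E0‖ ≤ η := by rw [hE0, hη]; exact he c0 hc0 hN0
  have n1 : ‖E1‖ ≤ η := by rw [hE1, hη]; exact he c1 hc1 hN1
  have n2 : ‖E2‖ ≤ η := by rw [hE2, hη]; exact he c2 hc2 hN2
  have ultra : ∀ u v : ℚ_[2], ∀ t : ℝ, ‖u‖ ≤ t → ‖v‖ ≤ t → ‖u - v‖ ≤ t := by
    intro u v t hu hv
    rw [sub_eq_add_neg]
    exact (Padic.nonarchimedean _ _).trans (max_le hu (by rwa [norm_neg]))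
  have n10 : ‖E1 - E0‖ ≤ η := ultra _ _ _ n1 n0
  have n20 : ‖E2 - E0‖ ≤ η := ultra _ _ _ n2 n0
  -- differences of the points
  have k1 : c1 - c0 = 2 ^ r * 2 ^ (r + 2) / a := by
    have : c1 - c0 = (c1 - X) - (c0 - X) := by ring
    rw [this, hd1, hd0]; ring
  have k2 : c2 - c0 = 2 ^ r * (3 * 2 ^ (r + 1)) / a := by
    have : c2 - c0 = (c2 - X) - (c0 - X) := by ring
    rw [this, hd2, hd0]; ring
  have N1 : N (c1 - c0) = (1 / 2) ^ r * (1 / 2) ^ (r + 2) := by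
    rw [k1, N_div, N_mul, N_pow, N_pow, N_nat ha, div_one]
  have N3 : N 3 = 1 := by have := N_nat h3; push_cast at this; exact this
  have N2 : N (c2 - c0) = (1 / 2) ^ r * (1 / 2) ^ (r + 1) := by
    rw [k2, N_div, N_mul, N_mul, N_pow, N_pow, N_nat ha, div_one, N3, one_mul]
  have f1 : ((h c1 - h c0 : ℚ) : ℚ_[2]) = Λ * ((c1 - c0 : ℚ) : ℚ_[2]) + (E1 - E0) := by
    rw [hE1, hE0]; push_cast; ring
  have f2 : ((h c2 - h c0 : ℚ) : ℚ_[2]) = Λ * ((c2 - c0 : ℚ) : ℚ_[2]) + (E2 - E0) := by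
    rw [hE2, hE0]; push_cast; ring
  have hη4 : η ≤ (1 / 2) ^ (r + 4) := by
    rw [hη]
    calc (‖L‖ * (1 / 2) ^ (r + 4)) * (1 / 2 : ℝ) ^ r = (‖L‖ * (1 / 2) ^ r) * (1 / 2) ^ (r + 4) := by ring
      _ ≤ 1 * (1 / 2) ^ (r + 4) := mul_le_mul_of_nonneg_right hL1 (by positivity)
      _ = _ := one_mul _
  have g1 : N (h c1 - h c0) ≤ (1 / 2) ^ (r + 2) := by
    unfold N
    rw [f1]
    refine (Padic.nonarchimedean _ _).trans (max_le ?_ ?_)
    · rw [norm_mul, hΛ]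
      have : ‖((c1 - c0 : ℚ) : ℚ_[2])‖ = (1 / 2) ^ r * (1 / 2) ^ (r + 2) := N1
      rw [this, ← mul_assoc]
      exact mul_le_of_le_one_left (by positivity) hL1
    · exact n10.trans (hη4.trans (pow_le_pow_of_le_one (by norm_num) (by norm_num) (by omega)))
  have g2 : N (h c2 - h c0) ≤ (1 / 2) ^ (r + 1) := by
    unfold N
    rw [f2]
    refine (Padic.nonarchimedean _ _).trans (max_le ?_ ?_)
    · rw [norm_mul, hΛ]
      have : ‖((c2 - c0 : ℚ) : ℚ_[2])‖ = (1 / 2) ^ r * (1 / 2) ^ (r + 1) := N2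
      rw [this, ← mul_assoc]
      exact mul_le_of_le_one_left (by positivity) hL1
    · exact n20.trans (hη4.trans (pow_le_pow_of_le_one (by norm_num) (by norm_num) (by omega)))
  obtain ⟨b, hb⟩ : ∃ b, b = A 5 r (h c0) := ⟨_, rfl⟩
  have hbo : Odd b := hb ▸ A_odd h5 r (h c0)
  have hbq : (b : ℚ) ≠ 0 := by
    have : b ≠ 0 := by rintro rfl; exact absurd hbo (by decide)
    exact_mod_cast this
  have i1 := iter_sub h5 r (hm hc1) (hm hc0)
    (g1.trans (pow_le_pow_of_le_one (by norm_num) (by norm_num) (by omega)))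
  have i2 := iter_sub h5 r (hm hc2) (hm hc0)
    (g2.trans (pow_le_pow_of_le_one (by norm_num) (by norm_num) (by omega)))
  rw [← iter_h hc r hc1, ← iter_h hc r hc0, hT1, hT0, ← hb] at i1
  rw [← iter_h hc r hc2, ← iter_h hc r hc0, hT2, hT0, ← hb] at i2
  -- one more step
  have g3 : N (h (-1 + 2 ^ (r + 2)) - h (-1)) ≤ (1 / 2) ^ 1 := by
    rw [i1, N_div, N_mul, N_nat hbo, one_mul, N_pow, div_le_iff₀ hpr]
    refine g1.trans ?_
    have : (1 / 2 : ℝ) ^ (r + 2) = (1 / 4) * (1 / 2) ^ r := by rw [pow_add]; ring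
    rw [this]
    nlinarith
  have i3 := iter_sub h5 1 (hm hz1D) (hm neg_one_mem) g3
  simp only [Function.iterate_one, pow_one] at i3
  rw [← hc _ hz1D, ← hc _ neg_one_mem, hTz, T_neg_one] at i3
  obtain ⟨β, hβ⟩ : ∃ β, β = A 5 1 (h (-1)) := ⟨_, rfl⟩
  have hβ' : β = 1 ∨ β = 5 := by
    rw [hβ]
    simp only [A]
    split_ifs <;> simp
  rw [← hβ, i1, i2] at i3
  have j : 2 * (h c2 - h c0) = β * (h c1 - h c0) := by
    have hp : (2 : ℚ) ^ r ≠ 0 := pow_ne_zero _ (by norm_num)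
    field_simp at i3
    linarith
  have j' : (2 : ℚ_[2]) * ((h c2 - h c0 : ℚ) : ℚ_[2]) = (β : ℚ_[2]) * ((h c1 - h c0 : ℚ) : ℚ_[2]) := by
    have := congrArg (Rat.cast : ℚ → ℚ_[2]) j
    push_cast at this ⊢
    exact this
  have k3 : (2 : ℚ_[2]) * ((c2 - c0 : ℚ) : ℚ_[2]) = 3 * ((c1 - c0 : ℚ) : ℚ_[2]) := by
    have : 2 * (c2 - c0) = 3 * (c1 - c0) := by rw [k1, k2, pow_succ, pow_succ]; ring
    have := congrArg (Rat.cast : ℚ → ℚ_[2]) this
    push_cast at this ⊢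
    exact this
  rw [f1, f2] at j'
  have fin1 : (3 - (β : ℚ_[2])) * (Λ * ((c1 - c0 : ℚ) : ℚ_[2])) =
      (β : ℚ_[2]) * (E1 - E0) - 2 * (E2 - E0) := by
    linear_combination j' - Λ * k3
  have nβ : ‖(3 - (β : ℚ_[2]))‖ = 1 / 2 := by
    have h2 : ‖(2 : ℚ_[2])‖ = 1 / 2 := by have := N_two; unfold N at this; exact_mod_cast this
    rcases hβ' with h' | h'
    · rw [h']
      have : (3 - ((1 : ℕ) : ℚ_[2])) = 2 := by norm_num
      rw [this, h2]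
    · rw [h']
      have : (3 - ((5 : ℕ) : ℚ_[2])) = -2 := by norm_num
      rw [this, norm_neg, h2]
  have nβ1 : ‖(β : ℚ_[2])‖ ≤ 1 := by
    have := Padic.norm_int_le_one (p := 2) (β : ℤ)
    exact_mod_cast this
  have n2' : ‖(2 : ℚ_[2])‖ ≤ 1 := by
    have := Padic.norm_int_le_one (p := 2) 2
    exact_mod_cast this
  have hη0 : 0 ≤ η := (norm_nonneg _).trans n0
  have r1 : ‖(β : ℚ_[2]) * (E1 - E0) - 2 * (E2 - E0)‖ ≤ η := by
    apply ultra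
    · rw [norm_mul]
      calc _ ≤ 1 * η := mul_le_mul nβ1 n10 (norm_nonneg _) (by norm_num)
        _ = η := one_mul _
    · rw [norm_mul]
      calc _ ≤ 1 * η := mul_le_mul n2' n20 (norm_nonneg _) (by norm_num)
        _ = η := one_mul _
  rw [← fin1, norm_mul, nβ, norm_mul, hΛ] at r1
  have : ‖((c1 - c0 : ℚ) : ℚ_[2])‖ = (1 / 2) ^ r * (1 / 2) ^ (r + 2) := N1
  rw [this, hη] at r1
  have p2 : (1 / 2 : ℝ) ^ (r + 2) = (1 / 4) * (1 / 2) ^ r := by rw [pow_add]; ring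
  have p4 : (1 / 2 : ℝ) ^ (r + 4) = (1 / 16) * (1 / 2) ^ r := by rw [pow_add]; ring
  rw [p2, p4] at r1
  have hpos : 0 < ‖L‖ * ((1 / 2) ^ r * (1 / 2) ^ r) := by positivity
  nlinarith

theorem main {h : ℚ → ℚ} (hm : Set.MapsTo h D D) (hc : ∀ x ∈ D, h (T 3 x) = T 5 (h x))
    {x : ℚ} (hx : x ∈ D) {L : ℚ_[2]} (hL : HasDer h x L) : L = 0 := by
  by_contra hL0
  obtain ⟨r, hr⟩ : ∃ r : ℕ, ‖L‖ ≤ 2 ^ r := by
    obtain ⟨r, hr⟩ := pow_unbounded_of_one_lt ‖L‖ (by norm_num : (1 : ℝ) < 2)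
    exact ⟨r, hr.le⟩
  have hp : 0 < ‖L‖ := norm_pos_iff.2 hL0
  obtain ⟨X, hX, Λ, hΛ, he⟩ := est hm hc hx hL r hr (ε := ‖L‖ * (1 / 2) ^ (r + 4)) (by positivity)
  exact fin hm hc hL0 r hr hX hΛ he

end RatDeriv
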